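import Pool.Agent.W993.MC.Stm

set_option autoImplicit false

/-!
# Convergence of the nested sums
-/

namespace Pool.Agent.W486.MC

open Filter Topology Pool.Agent.W993.MC

lemma hm_succ (l : ℕ) : hm (l + 1) = hm l + 1 / ((l : ℝ) + 1) := by
  unfold hm
  rw [Finset.sum_range_succ]

lemma hm_nonneg (l : ℕ) : 0 ≤ hm l := by
  unfold hm
  exact Finset.sum_nonneg fun i _ => by positivity

lemma hm_le_succ (l : ℕ) : hm l ≤ hm (l + 1) := by
  rw [hm_succ]
  have : (0 : ℝ) ≤ 1 / ((l : ℝ) + 1) := by positivity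
  linarith

lemma one_le_hm (l : ℕ) : 1 ≤ hm (l + 1) := by
  induction l with
  | zero => simp [hm]
  | succ l ih => exact ih.trans (hm_le_succ _)

lemma norm_l (l : ℕ) : ‖(l : ℂ) + 1‖ = (l : ℝ) + 1 := by
  have : (l : ℂ) + 1 = ((l + 1 : ℕ) : ℂ) := by push_cast; rfl
  rw [this, Complex.norm_natCast]
  push_cast
  rfl

lemma norm_S (hBD : S_BD) (L : List (ℕ × ℂ)) (hL : ∀ p ∈ L, 1 ≤ p.1 ∧ ‖p.2‖ ≤ 1) (l : ℕ) :
    ‖S L l‖ ≤ hm (l + 1) ^ L.length :=
  (hBD L hL l).trans (pow_le_pow_left₀ (hm_nonneg l) (hm_le_succ l) _)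

lemma norm_term (hBD : S_BD) (L : List (ℕ × ℂ)) (hL : ∀ p ∈ L, 1 ≤ p.1 ∧ ‖p.2‖ ≤ 1)
    (a : ℕ) (z : ℂ) (hz : ‖z‖ ≤ 1) (l : ℕ) :
    ‖z ^ (l + 1) / ((l : ℂ) + 1) ^ a * S L l‖ ≤ hm (l + 1) ^ L.length / ((l : ℝ) + 1) ^ a := by
  rw [norm_mul, norm_div, norm_pow, norm_pow, norm_l, div_mul_eq_mul_div]
  apply div_le_div_of_nonneg_right _ (by positivity)
  calc ‖z‖ ^ (l + 1) * ‖S L l‖ ≤ 1 * ‖S L l‖ :=
        mul_le_mul_of_nonneg_right (pow_le_one₀ (norm_nonneg _) hz) (norm_nonneg _)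
    _ = ‖S L l‖ := one_mul _
    _ ≤ _ := norm_S hBD L hL l

lemma S_succ (a : ℕ) (z : ℂ) (L : List (ℕ × ℂ)) (M : ℕ) :
    S ((a, z) :: L) (M + 1) = S ((a, z) :: L) M + z ^ (M + 1) / ((M : ℂ) + 1) ^ a * S L M := by
  simp only [S]
  rw [Finset.sum_range_succ]

lemma norm_diff (hBD : S_BD) (L : List (ℕ × ℂ)) (hL : ∀ p ∈ L, 1 ≤ p.1 ∧ ‖p.2‖ ≤ 1) (l : ℕ) :
    ‖S L (l + 1) - S L l‖ ≤ hm (l + 1) ^ L.length / ((l : ℝ) + 1) := by
  have h0 := hm_nonneg (l + 1)
  match L, hL with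
  | [], _ =>
    simp only [S, sub_self, norm_zero]
    positivity
  | (a, z) :: L, hL =>
    rw [S_succ, add_sub_cancel_left]
    have ha : 1 ≤ a := (hL (a, z) (by simp)).1
    have hz : ‖z‖ ≤ 1 := (hL (a, z) (by simp)).2
    have hL' : ∀ p ∈ L, 1 ≤ p.1 ∧ ‖p.2‖ ≤ 1 := fun p hp => hL p (by simp [hp])
    refine (norm_term hBD L hL' a z hz l).trans ?_
    have h1 : hm (l + 1) ^ L.length ≤ hm (l + 1) ^ ((a, z) :: L).length :=
      pow_le_pow_right₀ (one_le_hm l) (by simp)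
    have h2 : (1 : ℝ) ≤ (l : ℝ) + 1 := by
      have : (0 : ℝ) ≤ (l : ℝ) := Nat.cast_nonneg l
      linarith
    have h3 : (l : ℝ) + 1 ≤ ((l : ℝ) + 1) ^ a := le_self_pow₀ h2 (by omega)
    exact div_le_div₀ (by positivity) h1 (by positivity) h3

theorem cv (hBD : S_BD) (hSUM : S_SUM) (hDIR : S_DIR) : S_CV := by
  intro a z L ha hz hne hL
  rcases Nat.lt_or_ge a 2 with h | h
  · have ha1 : a = 1 := by omega
    subst ha1
    have hz1 : z ≠ 1 := by
      rintro rfl
      exact hne rfl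
    have key := hDIR z (fun l => S L l / ((l : ℂ) + 1)) hz hz1 ?_ ?_
    · obtain ⟨v, hv⟩ := key
      refine ⟨v, ?_⟩
      refine hv.congr fun M => ?_
      simp only [S]
      refine Finset.sum_congr rfl fun l _ => ?_
      rw [pow_one]
      ring
    · -- tends to zero
      rw [tendsto_zero_iff_norm_tendsto_zero]
      have h1 := (hSUM (2 * L.length)).tendsto_atTop_zero
      have h2 : Tendsto (fun l : ℕ => Real.sqrt (hm (l + 1) ^ (2 * L.length) / ((l : ℝ) + 1) ^ 2))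
          atTop (𝓝 0) := by
        have := (Real.continuous_sqrt.tendsto 0).comp h1
        rwa [Real.sqrt_zero] at this
      have h3 : ∀ l : ℕ, Real.sqrt (hm (l + 1) ^ (2 * L.length) / ((l : ℝ) + 1) ^ 2) =
          hm (l + 1) ^ L.length / ((l : ℝ) + 1) := by
        intro l
        have h0 := hm_nonneg (l + 1)
        have : hm (l + 1) ^ (2 * L.length) / ((l : ℝ) + 1) ^ 2 =
            (hm (l + 1) ^ L.length / ((l : ℝ) + 1)) ^ 2 := by
          rw [div_pow, ← pow_mul, mul_comm 2]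
        rw [this, Real.sqrt_sq (by positivity)]
      simp only [h3] at h2
      refine squeeze_zero (fun _ => norm_nonneg _) (fun l => ?_) h2
      rw [norm_div, norm_l]
      exact div_le_div_of_nonneg_right (norm_S hBD L hL l) (by positivity)
    · -- summable differences
      have h1 := (hSUM L.length).mul_left 2
      refine Summable.of_nonneg_of_le (fun _ => norm_nonneg _) (fun l => ?_) h1
      have hl1 : ((l : ℂ) + 1) ≠ 0 := by
        intro h0
        have := norm_l l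
        rw [h0, norm_zero] at this
        have : (0 : ℝ) ≤ (l : ℝ) := Nat.cast_nonneg l
        linarith
      have hl2 : (((l + 1 : ℕ) : ℂ) + 1) ≠ 0 := by
        intro h0
        have := norm_l (l + 1)
        rw [h0, norm_zero] at this
        have : (0 : ℝ) ≤ ((l + 1 : ℕ) : ℝ) := Nat.cast_nonneg _
        linarith
      have e : S L (l + 1) / (((l + 1 : ℕ) : ℂ) + 1) - S L l / ((l : ℂ) + 1) =
          (S L (l + 1) - S L l) / (((l + 1 : ℕ) : ℂ) + 1) -
            S L l / ((((l + 1 : ℕ) : ℂ) + 1) * ((l : ℂ) + 1)) := by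
        field_simp
        push_cast
        ring
      show ‖S L (l + 1) / (((l + 1 : ℕ) : ℂ) + 1) - S L l / ((l : ℂ) + 1)‖ ≤ _
      rw [e]
      refine (norm_sub_le _ _).trans ?_
      rw [norm_div, norm_div, norm_mul, norm_l, norm_l]
      have h2 := norm_diff hBD L hL l
      have h3 := norm_S hBD L hL l
      have h0 := hm_nonneg (l + 1)
      set x := hm (l + 1) ^ L.length with hx
      have hx0 : 0 ≤ x := by positivity
      have hle : (l : ℝ) + 1 ≤ ((l + 1 : ℕ) : ℝ) + 1 := by push_cast; linarith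
      have hp : (0 : ℝ) < (l : ℝ) + 1 := by positivity
      have e1 : ‖S L (l + 1) - S L l‖ / (((l + 1 : ℕ) : ℝ) + 1) ≤ x / ((l : ℝ) + 1) ^ 2 := by
        calc ‖S L (l + 1) - S L l‖ / (((l + 1 : ℕ) : ℝ) + 1) ≤
            (x / ((l : ℝ) + 1)) / ((l : ℝ) + 1) :=
              div_le_div₀ (by positivity) h2 hp hle
          _ = x / ((l : ℝ) + 1) ^ 2 := by rw [div_div, sq]
      have e2 : ‖S L l‖ / ((((l + 1 : ℕ) : ℝ) + 1) * ((l : ℝ) + 1)) ≤ x / ((l : ℝ) + 1) ^ 2 := by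
        apply div_le_div₀ hx0 h3 (by positivity)
        rw [sq]
        exact mul_le_mul_of_nonneg_right hle hp.le
      linarith
  · have h1 : Summable (fun l : ℕ => z ^ (l + 1) / ((l : ℂ) + 1) ^ a * S L l) := by
      refine Summable.of_norm_bounded (hSUM L.length) fun l => ?_
      refine (norm_term hBD L hL a z hz l).trans ?_
      have h0 := hm_nonneg (l + 1)
      have h2 : (1 : ℝ) ≤ (l : ℝ) + 1 := by
        have : (0 : ℝ) ≤ (l : ℝ) := Nat.cast_nonneg l
        linarith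
      exact div_le_div_of_nonneg_left (by positivity) (by positivity) (pow_le_pow_right₀ h2 h)
    refine ⟨_, h1.hasSum.tendsto_sum_nat.congr fun M => ?_⟩
    simp only [S]

end Pool.Agent.W486.MC
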